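import Pool.Agent.H78.STN.Stmts2

/-! # Passing `c + 1` local minima before the return (for H42/STN/FI11; after H91/STN/ESC.lean) -/

set_option autoImplicit false

open Finset

namespace Pool.STN

theorem esk85_odd (x : ℕ) (h : F x % 2 = 0) : x % 3 = 0 := by
  by_contra hx
  unfold F at h
  rw [if_neg hx] at h
  split_ifs at h with h2
  · omega
  · omega

theorem esk_thm (hTRI : TRIStmt) (m0 k c : ℕ) (h2 : 2 ≤ m0) (hk : 1 ≤ k) (hper : F^[k] m0 = m0)
    (hev : m0 % 2 = 0) (hn3 : m0 % 3 ≠ 0)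
    (hesc : ∃ T : ℕ, (∀ j, 1 ≤ j → j ≤ T → F^[j] m0 ≠ m0) ∧
      c + 1 ≤ ((Finset.range T).filter fun j => F^[j] m0 % 3 = 0 ∧ F^[j + 1] m0 % 3 ≠ 0).card) :
    c + 2 ≤ lm F m0 k := by
  obtain ⟨T, hT1, hT2⟩ := hesc
  obtain ⟨-, -, hd, hu, -, -⟩ := hTRI m0 k h2 hk hper
  have hTk : T < k := by
    by_contra hcon
    exact hT1 k hk (by omega) hper
  have hk1 : k - 1 + 1 = k := by omega
  have hlast : F^[k - 1] m0 % 3 = 0 := by
    apply esk85_odd
    rw [← Function.iterate_succ_apply' F (k - 1) m0, Nat.succ_eq_add_one, hk1, hper]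
    exact hev
  have hmem : ∀ j, (F^[j + 1] m0 < F^[j] m0 ∧ F^[j + 1] m0 < F^[j + 2] m0) ↔
      (F^[j] m0 % 3 = 0 ∧ F^[j + 1] m0 % 3 ≠ 0) := by
    intro j
    rw [hd j, show j + 2 = (j + 1) + 1 from rfl, hu (j + 1)]
  unfold lm
  have hsub : insert (k - 1) ((range T).filter fun j => F^[j] m0 % 3 = 0 ∧ F^[j + 1] m0 % 3 ≠ 0) ⊆
      (Finset.range k).filter fun j => F^[j + 1] m0 < F^[j] m0 ∧ F^[j + 1] m0 < F^[j + 2] m0 := by
    intro j hj
    rw [mem_insert] at hj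
    rw [mem_filter, mem_range, hmem]
    rcases hj with hj | hj
    · subst hj
      refine ⟨by omega, hlast, ?_⟩
      rw [hk1, hper]
      exact hn3
    · rw [mem_filter, mem_range] at hj
      exact ⟨by omega, hj.2⟩
  have hnot : k - 1 ∉ ((range T).filter fun j => F^[j] m0 % 3 = 0 ∧ F^[j + 1] m0 % 3 ≠ 0) := by
    intro hj
    rw [mem_filter, mem_range] at hj
    omega
  have hcard := card_le_card hsub
  rw [card_insert_of_notMem hnot] at hcard
  omega

end Pool.STN
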