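import Pool.Agent.H78.STN.Stmts3

/-!
# Board STO, row FIK: the known cycles, eleven local minima (after H46/STN/FI4.lean)
-/

set_option autoImplicit false

open Finset Pool.Agent.H40.COL

namespace Pool.STN

/-- the union of the known cycles -/
def fik_S : Finset ℕ :=
  {1, 2, 3, 4, 5, 6, 7, 9, 44, 59, 79, 105, 70, 93, 62, 83, 111, 74, 99, 66}

theorem fik_closed : ∀ x ∈ fik_S, F x ∈ fik_S := by decide

theorem fik_orbit (x : ℕ) (hx : x ∈ fik_S) (j : ℕ) : F^[j] x ∈ fik_S := by
  induction j with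
  | zero => exact hx
  | succ j ih =>
    rw [Function.iterate_succ_apply']
    exact fik_closed _ ih

theorem fik_sum : (∑ i ∈ range 11, ((8 : ℝ) / 5) ^ i) ≤ 292 := by
  simp only [Finset.sum_range_succ, Finset.sum_range_zero]
  norm_num

theorem FIK_thm (hSU2 : SU2Stmt) (hCKK : CKKStmt) (hCHB : CHBStmt) (hSIK : SIKStmt)
    (hROT : ROTStmt) (hESK : ESKStmt) (hLEA : LEAStmt) (hFEQ : FEQStmt) : FIKStmt := by
  intro hEJC hENJ f hf m k hm hk hper hcard
  have hFe := fun i => (hFEQ f hf m hm i).1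
  have hperF : F^[k] m = m := by rw [← hFe k]; exact hper
  have hlm : lm F m k ≤ 11 := by
    unfold lm
    simp only [hFe] at hcard
    exact hcard
  rcases Nat.lt_or_ge m 2 with h1 | h2
  · have : m = 1 := by omega
    rw [this]
    decide
  obtain ⟨i, hmin, hge, hev, hn3⟩ := hLEA m k h2 hk hperF
  obtain ⟨hper0, hlm0⟩ := hROT F m k i hperF
  have hmin0 : ∀ j, F^[i] m ≤ F^[j] (F^[i] m) := by
    intro j
    rw [← Function.iterate_add_apply]
    exact hmin _
  set m0 := F^[i] m with hm0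
  have hlmK : lm F m0 k ≤ 11 := by rw [hlm0]; exact hlm
  have hlog : 0 ≤ Real.log (m0 : ℝ) := Real.log_natCast_nonneg m0
  obtain ⟨U, hU, hsum⟩ := hSU2 m0 k m0 hk hper0 hge hmin0
  have hUk : U ≤ k := by omega
  have hdn : k - U = dnc m0 k := by omega
  have hlen : ((k - U : ℕ) : ℝ) * Real.log 2 ≤ 292 * Real.log m0 := by
    rw [hdn]
    exact (hCHB m0 k 11 hge hk hper0 hmin0 hlmK).trans
      (mul_le_mul_of_nonneg_right fik_sum hlog)
  have hm1 : (0 : ℝ) < (m0 : ℝ) - 1 := by
    have : (2 : ℝ) ≤ (m0 : ℝ) := by exact_mod_cast hge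
    linarith
  have hsumK : |((k + U : ℕ) : ℝ) * Real.log 2 - (k : ℝ) * Real.log 3| ≤ 11 / ((m0 : ℝ) - 1) := by
    refine hsum.trans ?_
    have : (lm F m0 k : ℝ) ≤ 11 := by exact_mod_cast hlmK
    exact div_le_div_of_nonneg_right this hm1.le
  have hbig : m0 ≤ 275001 := hCKK k U m0 hk hUk hge hlen hsumK
  have hS : m0 ∈ fik_S := by
    by_contra hcon
    have h5 : 5 ≤ m0 ∧ m0 ≠ 44 := by
      refine ⟨?_, ?_⟩
      · by_contra h5
        have : m0 = 2 ∨ m0 = 4 := by omega
        rcases this with h | h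
        · exact hcon (by rw [h]; decide)
        · exact hcon (by rw [h]; decide)
      · intro h
        exact hcon (by rw [h]; decide)
    have hsim := hENJ hEJC m0 hbig hev hn3 h5.1 h5.2
    have hesc := hSIK 120 m0 hge hev hn3 hmin0 hsim
    have h12 := hESK m0 k hge hk hper0 hev hn3 hesc
    omega
  have hback : F^[i * (k - 1)] m0 = m := by
    rw [hm0, ← Function.iterate_add_apply]
    have e : i * (k - 1) + i = k * i := by
      obtain ⟨k', rfl⟩ : ∃ k', k = k' + 1 := ⟨k - 1, by omega⟩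
      rw [Nat.add_sub_cancel]
      ring
    rw [e]
    exact (Function.IsPeriodicPt.mul_const (show Function.IsPeriodicPt F k m from hperF) i)
  have hfin := fik_orbit m0 hS (i * (k - 1))
  rw [hback] at hfin
  exact hfin

end Pool.STN
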