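import Pool.Agent.H78.STN.Stmts3

/-!
# Board STO, row CHB: the number of descending steps

Backward induction over single steps: `x` reaches `m0` after `n` steps.  The state keeps the end `w` of the
descending block of `x`, the remaining length `b` of this block, and the number `L` of complete blocks after it.
-/

set_option autoImplicit false

open Finset

namespace Pool.STN

/-- the number of descending steps -/
def chb85_D (n x : ℕ) : ℕ := ∑ i ∈ range n, if F^[i] x % 3 = 0 then 1 else 0

/-- the number of block ends -/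
def chb85_L (n x : ℕ) : ℕ := ∑ i ∈ range n, if (F^[i] x % 3 = 0 ∧ F^[i + 1] x % 3 ≠ 0) then 1 else 0

theorem chb85_D_succ (n x : ℕ) :
    chb85_D (n + 1) x = chb85_D n (F x) + if x % 3 = 0 then 1 else 0 := by
  unfold chb85_D
  rw [Finset.sum_range_succ']
  rfl

theorem chb85_L_succ (n x : ℕ) :
    chb85_L (n + 1) x = chb85_L n (F x) + if (x % 3 = 0 ∧ F x % 3 ≠ 0) then 1 else 0 := by
  unfold chb85_L
  rw [Finset.sum_range_succ']
  rfl

theorem chb85_down (x : ℕ) (h : x % 3 = 0) : 3 * F x = 2 * x := by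
  unfold F
  rw [if_pos h]
  omega

theorem chb85_up (x : ℕ) (h : x % 3 ≠ 0) : x ≤ F x := by
  unfold F
  rw [if_neg h]
  split_ifs with h2
  · omega
  · omega

theorem chb85_log32 : Real.log (3 / 2) ≤ 3 / 5 * Real.log 2 := by
  have h : (5 : ℝ) * Real.log (3 / 2) ≤ 3 * Real.log 2 := by
    have e1 : (5 : ℝ) * Real.log (3 / 2) = Real.log ((3 / 2) ^ 5) := by
      rw [Real.log_pow]; norm_num
    have e2 : (3 : ℝ) * Real.log 2 = Real.log (2 ^ 3) := by
      rw [Real.log_pow]; norm_num
    rw [e1, e2]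
    apply Real.log_le_log (by norm_num)
    norm_num
  linarith

/-- a block: `x 2 ^ b = 3 ^ b w` -/
theorem chb85_block (x w b : ℕ) (hw : 1 ≤ w) (hx : 1 ≤ x) (h : x * 2 ^ b = 3 ^ b * w) :
    (b : ℝ) * Real.log 2 ≤ Real.log w ∧ Real.log x ≤ 8 / 5 * Real.log w := by
  have hdvd : 2 ^ b ∣ w := by
    have h1 : 2 ^ b ∣ 3 ^ b * w := ⟨x, by rw [← h]; ring⟩
    have hc : Nat.Coprime (2 ^ b) (3 ^ b) := Nat.Coprime.pow b b (by norm_num)
    exact hc.dvd_of_dvd_mul_left h1
  have hle : 2 ^ b ≤ w := Nat.le_of_dvd hw hdvd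
  have hb : (b : ℝ) * Real.log 2 ≤ Real.log w := by
    rw [← Real.log_pow]
    apply Real.log_le_log (by positivity)
    exact_mod_cast hle
  refine ⟨hb, ?_⟩
  have hx' : (x : ℝ) ≠ 0 := by
    have : (1 : ℝ) ≤ x := by exact_mod_cast hx
    positivity
  have hw' : (w : ℝ) ≠ 0 := by
    have : (1 : ℝ) ≤ w := by exact_mod_cast hw
    positivity
  have hl : Real.log x + b * Real.log 2 = b * Real.log 3 + Real.log w := by
    have e : ((x : ℝ) * 2 ^ b) = 3 ^ b * w := by exact_mod_cast h
    have e' := congrArg Real.log e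
    rw [Real.log_mul hx' (by positivity), Real.log_mul (by positivity) hw', Real.log_pow,
      Real.log_pow] at e'
    exact e'
  have h32 : Real.log (3 / 2) = Real.log 3 - Real.log 2 := Real.log_div (by norm_num) (by norm_num)
  have h3 := chb85_log32
  rw [h32] at h3
  have hb0 : (0 : ℝ) ≤ b := Nat.cast_nonneg b
  have hm := mul_le_mul_of_nonneg_left h3 hb0
  have e3 : (b : ℝ) * (Real.log 3 - Real.log 2) = b * Real.log 3 - b * Real.log 2 := by ring
  rw [e3] at hm
  nlinarith

theorem chb85_main (m0 : ℕ) (hm0 : 2 ≤ m0) (h3 : m0 % 3 ≠ 0) (n : ℕ) :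
    ∀ x : ℕ, F^[n] x = m0 → (∀ j, 1 ≤ F^[j] x) →
    ∃ b w L : ℕ, 1 ≤ w ∧ x * 2 ^ b = 3 ^ b * w ∧ (x % 3 ≠ 0 → b = 0) ∧ (x % 3 = 0 → 1 ≤ b) ∧
      Real.log w ≤ (8 / 5 : ℝ) ^ L * Real.log m0 ∧
      (chb85_D n x : ℝ) * Real.log 2 ≤
        (∑ i ∈ range L, ((8 : ℝ) / 5) ^ i) * Real.log m0 + b * Real.log 2 ∧
      chb85_L n x = L + (if b = 0 then 0 else 1) := by
  have hlm : 0 ≤ Real.log (m0 : ℝ) := Real.log_natCast_nonneg m0
  have hl2 : 0 ≤ Real.log 2 := Real.log_nonneg (by norm_num)
  induction n with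
  | zero =>
    intro x hx hpos
    have hx' : x = m0 := hx
    subst hx'
    refine ⟨0, x, 0, by omega, by simp, fun _ => rfl, fun h => absurd h h3, by simp, ?_, ?_⟩
    · simp [chb85_D]
    · simp [chb85_L]
  | succ n ih =>
    intro x hx hpos
    have hF : F^[n] (F x) = m0 := hx
    have hposF : ∀ j, 1 ≤ F^[j] (F x) := fun j => hpos (j + 1)
    obtain ⟨b, w, L, hw, hxw, hb0, hb1, hlw, hD, hL⟩ := ih (F x) hF hposF
    have hx1 : 1 ≤ x := hpos 0
    have hFx1 : 1 ≤ F x := hpos 1
    by_cases hx3 : x % 3 = 0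
    · have hd := chb85_down x hx3
      refine ⟨b + 1, w, L, hw, ?_, fun h => absurd hx3 h, fun _ => by omega, hlw, ?_, ?_⟩
      · have : x * 2 ^ (b + 1) = 3 * (F x * 2 ^ b) := by
          rw [pow_succ]
          calc x * (2 ^ b * 2) = (2 * x) * 2 ^ b := by ring
            _ = (3 * F x) * 2 ^ b := by rw [hd]
            _ = 3 * (F x * 2 ^ b) := by ring
        rw [this, hxw, pow_succ]
        ring
      · rw [chb85_D_succ, if_pos hx3]
        push_cast
        linarith
      · rw [chb85_L_succ, hL, if_neg (Nat.succ_ne_zero b)]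
        by_cases hF3 : F x % 3 = 0
        · have := hb1 hF3
          rw [if_neg (by omega : ¬ b = 0), if_neg (by tauto)]
        · have := hb0 hF3
          rw [if_pos this, if_pos ⟨hx3, hF3⟩]
    · have hu := chb85_up x hx3
      have hxF : Real.log x ≤ Real.log (F x : ℕ) := by
        apply Real.log_le_log
        · exact_mod_cast hx1
        · exact_mod_cast hu
      obtain ⟨hbw, hFw⟩ := chb85_block (F x) w b hw hFx1 hxw
      have hDx : chb85_D (n + 1) x = chb85_D n (F x) := by
        rw [chb85_D_succ, if_neg hx3, add_zero]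
      have hLx : chb85_L (n + 1) x = chb85_L n (F x) := by
        rw [chb85_L_succ, if_neg (by tauto), add_zero]
      by_cases hbz : b = 0
      · have hwF : w = F x := by
          rw [hbz] at hxw
          simpa using hxw.symm
        refine ⟨0, x, L, hx1, by simp, fun _ => rfl, fun h => absurd h hx3, ?_, ?_, ?_⟩
        · rw [hwF] at hlw
          exact hxF.trans hlw
        · rw [hDx]
          rw [hbz] at hD
          exact hD
        · rw [hLx, hL, if_pos hbz, if_pos rfl]
      · refine ⟨0, x, L + 1, hx1, by simp, fun _ => rfl, fun h => absurd h hx3, ?_, ?_, ?_⟩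
        · calc Real.log x ≤ 8 / 5 * Real.log w := hxF.trans hFw
            _ ≤ 8 / 5 * ((8 / 5 : ℝ) ^ L * Real.log m0) :=
                mul_le_mul_of_nonneg_left hlw (by norm_num)
            _ = (8 / 5 : ℝ) ^ (L + 1) * Real.log m0 := by rw [pow_succ]; ring
        · rw [hDx, Finset.sum_range_succ, add_mul]
          have := hbw.trans hlw
          push_cast
          linarith
        · rw [hLx, hL, if_neg hbz, if_pos rfl]

/-- CHB -/
theorem CHB_thm85 : CHBStmt := by
  intro m0 k K hm0 hk hper hmin hlmK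
  have hlm : 0 ≤ Real.log (m0 : ℝ) := Real.log_natCast_nonneg m0
  have h3 : m0 % 3 ≠ 0 := by
    intro h
    have h1 := chb85_down m0 h
    have h2 : m0 ≤ F m0 := hmin 1
    omega
  have hpos : ∀ j, 1 ≤ F^[j] m0 := fun j => le_trans (by omega) (hmin j)
  obtain ⟨b, w, L, -, -, hb0, -, -, hD, hL⟩ := chb85_main m0 hm0 h3 k m0 hper hpos
  have hbz := hb0 h3
  rw [hbz] at hD hL
  rw [if_pos rfl, add_zero] at hL
  have hDk : dnc m0 k = chb85_D k m0 := by
    unfold dnc chb85_D
    rw [Finset.card_filter]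
  have hLk : chb85_L k m0 ≤ lm F m0 k := by
    unfold chb85_L lm
    rw [← Finset.card_filter]
    apply Finset.card_le_card
    intro j hj
    rw [Finset.mem_filter] at hj ⊢
    obtain ⟨hj1, hj2, hj3⟩ := hj
    refine ⟨hj1, ?_, ?_⟩
    · have e := chb85_down _ hj2
      have h1 : 2 ≤ F^[j] m0 := hm0.trans (hmin j)
      rw [Function.iterate_succ_apply']
      omega
    · have h1 : 2 ≤ F^[j + 1] m0 := hm0.trans (hmin (j + 1))
      rw [show j + 2 = (j + 1) + 1 from rfl, Function.iterate_succ_apply' F (j + 1) m0]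
      unfold F at hj3 h1 ⊢
      rw [if_neg hj3]
      split_ifs with h2
      · omega
      · omega
  rw [hDk]
  refine hD.trans ?_
  rw [Nat.cast_zero, zero_mul, add_zero]
  apply mul_le_mul_of_nonneg_right _ hlm
  apply Finset.sum_le_sum_of_subset_of_nonneg
  · intro i hi
    rw [Finset.mem_range] at hi ⊢
    omega
  · intro i _ _
    positivity

end Pool.STN
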