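import Pool.Agent.H78.STN.Stmts

/-!
Row MID of the board stn (MP_9010c3_nt), helper85.
-/

set_option autoImplicit false

namespace Pool.STN

theorem MID_thm (h1 : CNVStmt) (h2 : LLWStmt) : MIDStmt := by
  intro a b ha hb hab hk
  obtain ⟨hl, he, hc⟩ := h2 a b ha hb hab
  have hm := h1 (a + b) (2 * a + b) (by omega) hk
  rw [← he] at hm
  have h3 : (4 : ℝ) / 100000 ≤ 2 / 2 ^ b := hm.trans hl
  have hb15 : b ≤ 15 := by
    by_contra hcon
    rw [not_le] at hcon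
    have h4 : (2 : ℝ) ^ 16 ≤ 2 ^ b := pow_le_pow_right₀ (by norm_num) hcon
    have h5 : (2 : ℝ) / 2 ^ b ≤ 2 / 2 ^ 16 :=
      div_le_div_of_nonneg_left (by norm_num) (by norm_num) h4
    have h6 : (4 : ℝ) / 100000 ≤ 2 / 2 ^ 16 := h3.trans h5
    norm_num at h6
  omega

end Pool.STN
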